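import Pool.Agent.H7.JB.Stmts
import Pool.Agent.H88.HZ.WSG

/-!
Board `jb14`, row WGG: nearly all vertices are clean (after the rows WSG of `hz12` and SUMX of
`gx10`).
-/

set_option autoImplicit false

open Finset

namespace Pool.JB7

open Pool.Agent.H23.KT Pool.Agent.H46.KW Pool.KQ Pool.GT7 Pool.GU7 Pool.HZ7

namespace H81WGG

/-- the abstract summation -/
theorem sum_le {V : Type} [Fintype V] [DecidableEq V] (Gd : Finset V) (U : V → Finset V)
    (Phv dfv : V → ℝ) (nv : V → V → ℝ)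
    (h1 : ∀ v ∈ Gd, Phv v ≤ dfv v + ∑ z ∈ U v, nv v z)
    (h2 : ∀ v ∈ Gd, ∀ z ∈ U v, z ∈ Gd → nv v z = 0)
    (h3 : ∀ z, z ∉ Gd → ∑ v ∈ Gd.filter (fun v => z ∈ U v), nv v z ≤ dfv z - Phv z) :
    ∑ v, Phv v ≤ ∑ v, dfv v := by
  have e1 : ∑ v ∈ Gd, Phv v ≤ ∑ v ∈ Gd, (dfv v + ∑ z ∈ U v, nv v z) := sum_le_sum h1
  rw [sum_add_distrib] at e1
  have e2 : ∑ v ∈ Gd, ∑ z ∈ U v, nv v z =
      ∑ v ∈ Gd, ∑ z ∈ (U v).filter (fun z => ¬ z ∈ Gd), nv v z := by
    refine sum_congr rfl fun v hv => ?_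
    rw [← sum_filter_add_sum_filter_not (U v) (fun z => z ∈ Gd)]
    rw [sum_eq_zero (s := (U v).filter (fun z => z ∈ Gd)), zero_add]
    intro z hz
    exact h2 v hv z (mem_filter.1 hz).1 (mem_filter.1 hz).2
  have e3 : ∑ v ∈ Gd, ∑ z ∈ (U v).filter (fun z => ¬ z ∈ Gd), nv v z =
      ∑ z ∈ univ.filter (fun z => ¬ z ∈ Gd), ∑ v ∈ Gd.filter (fun v => z ∈ U v), nv v z := by
    refine sum_comm' ?_
    intro v z
    simp only [mem_filter, mem_univ, true_and]
    tauto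
  have e4 : ∑ z ∈ univ.filter (fun z => ¬ z ∈ Gd), ∑ v ∈ Gd.filter (fun v => z ∈ U v), nv v z ≤
      ∑ z ∈ univ.filter (fun z => ¬ z ∈ Gd), (dfv z - Phv z) := by
    refine sum_le_sum fun z hz => h3 z ?_
    exact (mem_filter.1 hz).2
  rw [sum_sub_distrib] at e4
  have e5 : ∀ g : V → ℝ, ∑ v, g v = ∑ v ∈ Gd, g v + ∑ v ∈ univ.filter (fun z => ¬ z ∈ Gd), g v := by
    intro g
    rw [← sum_filter_add_sum_filter_not univ (fun z => z ∈ Gd) g]
    congr 1
    refine sum_congr ?_ fun _ _ => rfl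
    ext v
    simp
  rw [e5 Phv, e5 dfv]
  linarith

/-- the bound of the weights -/
theorem wbound {V : Type} [DecidableEq V] (G : SimpleGraph V) (p r a : ℕ) (W : Finset V)
    (ha : 1 ≤ a) (hrp : r ≤ p) (hph : 0 ≤ ph p r) (hCB : CB G W (p + 3))
    (hW : W.card ≤ (p + 3) * a + r) :
    Mz p r a * ∑ L ∈ clq G W (p + 3), min (r : ℝ) (XX G p r a W L) ≤
      2 ^ (p + 3) * ((p : ℝ) + 2) * ph p r * r * a := by
  have haR : (1 : ℝ) ≤ a := by exact_mod_cast ha
  have hM : 0 ≤ Mz p r a := by unfold Mz; positivity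
  have h1 : kc G W (p + 3) ≤ (a + 1) ^ (p + 3) := by
    have h1 := zyk (G := G) (p + 2) W hCB
    have h2 : W.card ≤ (p + 3) * (a + 1) := by
      have : (p + 3) * (a + 1) = (p + 3) * a + (p + 3) := by ring
      omega
    have h3 := bal_mono (q := p + 3) (by omega) h2
    rw [bal_mul_self (by omega)] at h3
    exact h1.trans h3
  have h2 : (kc G W (p + 3) : ℝ) ≤ (2 * (a : ℝ)) ^ (p + 3) := by
    have h3 : (kc G W (p + 3) : ℝ) ≤ ((a : ℝ) + 1) ^ (p + 3) := by exact_mod_cast h1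
    exact h3.trans (pow_le_pow_left₀ (by positivity) (by linarith) _)
  have h3 : ∑ L ∈ clq G W (p + 3), min (r : ℝ) (XX G p r a W L) ≤ (r : ℝ) * (2 * (a : ℝ)) ^ (p + 3) := by
    calc ∑ L ∈ clq G W (p + 3), min (r : ℝ) (XX G p r a W L)
        ≤ ∑ L ∈ clq G W (p + 3), (r : ℝ) := Finset.sum_le_sum (fun L _ => min_le_left _ _)
      _ = (r : ℝ) * (kc G W (p + 3) : ℝ) := by
          rw [sum_const, nsmul_eq_mul, ← kc_eq, mul_comm]
      _ ≤ (r : ℝ) * (2 * (a : ℝ)) ^ (p + 3) := mul_le_mul_of_nonneg_left h2 (by positivity)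
  calc Mz p r a * ∑ L ∈ clq G W (p + 3), min (r : ℝ) (XX G p r a W L)
      ≤ Mz p r a * ((r : ℝ) * (2 * (a : ℝ)) ^ (p + 3)) := mul_le_mul_of_nonneg_left h3 hM
    _ = 2 ^ (p + 3) * ((p : ℝ) + 2) * ph p r * r * a := by
        unfold Mz
        have hne : ((a : ℝ)) ^ (p + 3) ≠ 0 := by positivity
        rw [mul_pow]
        field_simp

theorem str_mono {V : Type} {G : SimpleGraph V} {p a : ℕ} {e e' C : ℝ} {W : Finset V}
    {P : Fin (p + 3) → Finset V} {U : Finset V} (h : Str G p a e' C W P U) (he : e' ≤ e) :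
    Str G p a e C W P U := by
  have ha : (0 : ℝ) ≤ a := Nat.cast_nonneg _
  refine ⟨h.par, h.disU, h.cov, fun i => ?_, fun i => ?_, h.mis, h.tot, h.cU, h.exc⟩
  · exact le_trans (mul_le_mul_of_nonneg_right (by linarith) ha) (h.lo i)
  · exact le_trans (h.hi i) (mul_le_mul_of_nonneg_right (by linarith) ha)

end H81WGG

open H81WGG in
open Classical in
theorem wgg_thm (hGCG : GCGStmt) (hWLG : WLGStmt) (hBUG : BUGStmt) (hGGG : GGGStmt)
    (hPHI : PHI0Stmt) (_hGCO : GCO0Stmt) : WGGStmt := by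
  intro p r hP
  obtain ⟨hPW, hph0, hph1, -⟩ := hGCG p r hP
  have hr1 : 1 ≤ r := hPW.r1
  have hP0 : Pr0 p 0 r := ⟨Nat.zero_le _, hr1, hP.rp⟩
  have hlz : 0 ≤ lz p r := by
    unfold lz
    have h1 : (r : ℝ) ≤ p := by exact_mod_cast hP.rp
    refine div_nonneg (mul_nonneg (by positivity) (by linarith)) (by positivity)
  obtain ⟨c, hc, hc1, hW1⟩ := hWLG p r hP
  have hA0 : 0 ≤ 2 ^ (p + 3) * ((p : ℝ) + 2) * ph p r * r := by positivity
  obtain ⟨C₂, hC₂, eB, heB, heB1, hB⟩ := hBUG p r hP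
    (2 ^ (p + 3) * ((p : ℝ) + 2) * ph p r * r + lz p r + c + 1) (by linarith)
  obtain ⟨C, C₁, hC, hW2⟩ := hW1 C₂ hC₂
  obtain ⟨eG, heG, heG1, hG1⟩ := hGGG p r hP
  refine ⟨C, hC, ?_⟩
  intro ε e K hε he he8
  obtain ⟨e', he'0, he'e, he'B, he'G⟩ : ∃ e' : ℝ, 0 < e' ∧ e' ≤ e ∧ e' ≤ eB ∧ e' ≤ eG :=
    ⟨min e (min eB eG), lt_min he (lt_min heB heG), min_le_left _ _,
      (min_le_right _ _).trans (min_le_left _ _), (min_le_right _ _).trans (min_le_right _ _)⟩
  have hε' : 0 < c * ε / 4 := by positivity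
  obtain ⟨aW, hW⟩ := hW2 (c * ε / 4) e' hε' he'0 (he'e.trans he8)
  obtain ⟨aB, hB⟩ := hB C
  obtain ⟨aG, hG2⟩ := hG1 C C₁
  refine ⟨aW + aB + aG + ⌈4 * |K| / (c * ε)⌉₊ + 1, ?_⟩
  intro a ha V _ _ G hG hsum
  have ha1 : 1 ≤ a := by omega
  have hapos : (0 : ℝ) < a := by
    have : 0 < a := by omega
    exact_mod_cast this
  have haK : 4 * |K| / (c * ε) ≤ a := by
    have h2 : 4 * |K| / (c * ε) ≤ (⌈4 * |K| / (c * ε)⌉₊ : ℝ) := Nat.le_ceil _
    have h3 : ((⌈4 * |K| / (c * ε)⌉₊ : ℕ) : ℝ) ≤ a := by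
      have : ⌈4 * |K| / (c * ε)⌉₊ ≤ a := by omega
      exact_mod_cast this
    linarith
  have hK : |K| ≤ c * ε / 4 * a := by
    rw [div_le_iff₀ (by positivity)] at haK
    linarith
  have hM0 : 0 ≤ Mz p r a := by unfold Mz; positivity
  -- the good vertices
  set Gd : Finset V := univ.filter (fun v => df G p 0 r a (nb G univ v) < C₂ * a) with hGd
  have hgd : ∀ v ∈ Gd, df G p 0 r a (nb G univ v) < C₂ * a := by
    intro v hv
    exact (mem_filter.1 hv).2
  have hngd : ∀ v, v ∉ Gd → C₂ * a ≤ df G p 0 r a (nb G univ v) := by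
    intro v hv
    by_contra hcon
    rw [not_le] at hcon
    exact hv (mem_filter.2 ⟨mem_univ v, hcon⟩)
  have hstr : ∀ v, v ∈ Gd → ∃ (P : Fin (p + 3) → Finset V) (U : Finset V),
      Str G p a e' C (nb G univ v) P U ∧
      a ^ (p + 4) ≤ (a + C₁) * kc G (nb G univ v) (p + 3) ∧
      Mz p r a * ∑ L ∈ clq G (nb G univ v) (p + 3), min (r : ℝ) (XX G p r a (nb G univ v) L) -
          Mz p r a * ((r : ℝ) / ((p : ℝ) + 4)) * kc G (nb G univ v) (p + 3) + lz p r * a +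
          (if U = ∅ ∧ (nb G univ v).card = (p + 3) * a + r then 0 else c * a) ≤
        df G p 0 r a (nb G univ v) + ∑ z ∈ U, ndz G p r a (un P) z + c * ε / 4 * a := by
    intro v hv
    exact hW a (by omega) G hG v (hgd v hv)
  choose! P U hS using hstr
  have hUsub : ∀ v ∈ Gd, ∀ z ∈ U v, G.Adj v z := by
    intro v hv z hz
    have : z ∈ nb G univ v := ((hS v hv).1.cov z).2 (Or.inl hz)
    exact ((mem_nb G).1 this).2
  set Cln : V → Prop := fun v => v ∈ Gd ∧ U v = ∅ ∧ (nb G univ v).card = (p + 3) * a + r with hCln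
  have hmain := sum_le Gd U
    (fun v => Mz p r a * ∑ L ∈ clq G (nb G univ v) (p + 3),
        min (r : ℝ) (XX G p r a (nb G univ v) L) -
      Mz p r a * ((r : ℝ) / ((p : ℝ) + 4)) * kc G (nb G univ v) (p + 3) + lz p r * a +
      (if Cln v then 0 else c * a) - c * ε / 4 * a)
    (fun v => df G p 0 r a (nb G univ v)) (fun v z => ndz G p r a (un (P v)) z) ?_ ?_ ?_
  rotate_left
  · intro v hv
    have h1 := (hS v hv).2.2
    have h2 : (if Cln v then 0 else c * (a : ℝ)) =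
        (if U v = ∅ ∧ (nb G univ v).card = (p + 3) * a + r then 0 else c * a) := by
      by_cases h : U v = ∅ ∧ (nb G univ v).card = (p + 3) * a + r
      · rw [if_pos h, if_pos (show Cln v from ⟨hv, h⟩)]
      · rw [if_neg h, if_neg (fun h' : Cln v => h h'.2)]
    show _ - _ ≤ df G p 0 r a (nb G univ v) + ∑ z ∈ U v, ndz G p r a (un (P v)) z
    rw [h2]
    linarith
  · intro v hv z hzU hz
    exact hG2 a (by omega) G hG e' he'0.le he'G v z (P v) (P z) (U v) (U z) (hS v hv).1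
      (hS z hz).1 hzU (hS z hz).2.1
  · intro z hz
    have hb := hB a (by omega) G hG e' he'0.le he'B z (Gd.filter (fun v => z ∈ U v)) P U
      (by
        intro v hv
        obtain ⟨hv1, hv2⟩ := mem_filter.1 hv
        exact (mem_nb G).2 ⟨mem_univ v, (hUsub v hv1 z hv2).symm⟩)
      (by
        intro v hv
        obtain ⟨hv1, hv2⟩ := mem_filter.1 hv
        exact ⟨(hS v hv1).1, hv2⟩)
      (hngd z hz)
    have hwb := wbound G p r a (nb G univ z) ha1 hP.rp hph0.le (hG.cb.nb (mem_univ z)) (hG.deg z)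
    have h3 : 0 ≤ Mz p r a * ((r : ℝ) / ((p : ℝ) + 4)) * kc G (nb G univ z) (p + 3) := by
      positivity
    have h4 : (if Cln z then 0 else c * (a : ℝ)) ≤ c * a := by
      split_ifs
      · positivity
      · exact le_rfl
    have h5 : 0 ≤ c * ε / 4 * a := by positivity
    show _ ≤ df G p 0 r a (nb G univ z) - (_ - _)
    have h6 : (2 ^ (p + 3) * ((p : ℝ) + 2) * ph p r * r + lz p r + c + 1) * a =
        2 ^ (p + 3) * ((p : ℝ) + 2) * ph p r * r * a + lz p r * a + c * a + a := by ring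
    rw [h6] at hb
    linarith
  -- sum over all vertices
  have hex := H14GLO.exch (G := G) (p + 3) (fun v L => min (r : ℝ) (XX G p r a (nb G univ v) L))
  have hphi := hPHI G p 0 r a hP0 hG.cb hG.deg
  have h4 : (r : ℝ) * kc G univ (p + 4) ≤ ∑ K ∈ clq G univ (p + 4), ∑ v ∈ K,
      min (r : ℝ) (XX G p r a (nb G univ v) (K.erase v)) := by
    rw [kc_eq, mul_comm, ← nsmul_eq_mul]
    exact card_nsmul_le_sum _ _ _ hphi
  have h5 := H88WSG.sum_kc G (p + 3)
  have h6 := hmain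
  rw [sum_sub_distrib, sum_add_distrib, sum_add_distrib, sum_sub_distrib, ← mul_sum, ← mul_sum,
    sum_const, sum_const, hex, h5, card_univ, nsmul_eq_mul, nsmul_eq_mul] at h6
  have h7 := mul_le_mul_of_nonneg_left h4 hM0
  have h10 : Mz p r a * ((r : ℝ) / ((p : ℝ) + 4)) * ((((p + 3 : ℕ) : ℝ) + 1) *
      kc G univ (p + 3 + 1)) = Mz p r a * (r * kc G univ (p + 4)) := by
    have hp4 : ((p : ℝ) + 4) ≠ 0 := by positivity
    push_cast
    field_simp
    ring
  rw [h10] at h6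
  have h11 : Mz p r a * ∑ K ∈ clq G univ (p + 3 + 1), ∑ v ∈ K,
      min (r : ℝ) (XX G p r a (nb G univ v) (K.erase v)) =
      Mz p r a * ∑ K ∈ clq G univ (p + 4), ∑ v ∈ K,
      min (r : ℝ) (XX G p r a (nb G univ v) (K.erase v)) := rfl
  rw [h11] at h6
  have h12 : ∑ v, (if Cln v then 0 else c * (a : ℝ)) =
      c * a * ((univ.filter (fun v => ¬ Cln v)).card : ℝ) := by
    rw [sum_ite, sum_const_zero, zero_add, sum_const, nsmul_eq_mul, mul_comm]
  rw [h12] at h6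
  refine ⟨univ.filter (fun v => Cln v), P, ?_, ?_⟩
  · intro v hv
    obtain ⟨hv1, hv2, hv3⟩ := (mem_filter.1 hv).2
    refine ⟨hv3, ?_⟩
    have h := (hS v hv1).1
    rw [hv2] at h
    exact str_mono h he'e
  · have hcomp : univ \ univ.filter (fun v => Cln v) = univ.filter (fun v => ¬ Cln v) := by
      ext v
      simp
    rw [hcomp]
    set M : ℝ := ((univ.filter (fun v => ¬ Cln v)).card : ℝ) with hM
    set m : ℝ := (Fintype.card V : ℝ) with hm
    have hm0 : 0 ≤ m := by positivity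
    have hKm : K * m ≤ c * ε / 4 * a * m :=
      mul_le_mul_of_nonneg_right ((le_abs_self K).trans hK) hm0
    have h9 : c * a * M ≤ K * m + c * ε / 4 * a * m := by
      nlinarith [h6, h7, hsum]
    have h14 : c * ε / 4 * a * m + c * ε / 4 * a * m ≤ c * a * (ε * m) := by
      have : 0 ≤ c * ε * a * m := by positivity
      nlinarith
    have h15 : (c * a) * M ≤ (c * a) * (ε * m) := by linarith
    exact le_of_mul_le_mul_left h15 (by positivity)

end Pool.JB7
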